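import Mathlib
import Pool.Agent.X262.Tcr

set_option autoImplicit false

/-!
The twisted conjugacy ratio depends on the generating set: an example with
`G = ℤ/2 × F_3`, where `F_3` is the free group of rank three.
-/

namespace Pool.Agent.Results.MP_91bf1e_al.RatioDepends

open Filter Topology

/-- The ball of radius `n`: the elements of `G` that are products of at most `n` elements of
`X ∪ X⁻¹`. -/
def ball {G : Type} [Group G] (X : Set G) (n : ℕ) : Set G :=
  {g | ∃ l : List G, l.length ≤ n ∧ (∀ x ∈ l, x ∈ X ∨ x⁻¹ ∈ X) ∧ l.prod = g}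

/-- The `φ`-conjugacy class of `y`. -/
def twClass {G : Type} [Group G] (φ : G →* G) (y : G) : Set G :=
  {x | ∃ z, x = z * y * (φ z)⁻¹}

/-- The number of `φ`-conjugacy classes that meet the ball of radius `n`, divided by the number of
elements of the ball. -/
noncomputable def ratio {G : Type} [Group G] (X : Set G) (φ : G →* G) (n : ℕ) : ℝ :=
  ((twClass φ '' ball X n).ncard : ℝ) / ((ball X n).ncard : ℝ)

/-- The `φ`-twisted conjugacy ratio `tcr_X(φ, G)`. -/
noncomputable def tcr {G : Type} [Group G] (X : Set G) (φ : G →* G) : ℝ :=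
  limsup (ratio X φ) atTop

open Pool.Agent.X262.Tcr

/-- the group -/
abbrev G : Type := Multiplicative (ZMod 2) × F

/-- the nontrivial element of the first factor -/
def s : Multiplicative (ZMod 2) := Multiplicative.ofAdd 1

theorem cases_s (u : Multiplicative (ZMod 2)) : u = 1 ∨ u = s := by
  revert u; decide

theorem s_inv : s⁻¹ = s := by decide

theorem s_ne : s ≠ 1 := by decide

/-- the endomorphism -/
noncomputable def phi : G →* G := (1 : Multiplicative (ZMod 2) →* Multiplicative (ZMod 2)).prodMap psi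

theorem phi_apply (z : G) : phi z = (1, psi z.2) := rfl

/-- the first generating set -/
def X : Set G := {(s, 1)} ∪ Set.range (fun i : ZMod 3 => (1, FreeGroup.of i))

/-- the second generating set -/
def Y : Set G := X ∪ Set.range (fun i : ZMod 3 => (s, FreeGroup.of i))

theorem X_finite : X.Finite := (Set.finite_singleton _).union (Set.finite_range _)

theorem Y_finite : Y.Finite := X_finite.union (Set.finite_range _)

theorem letter_norm (x : ZMod 3 × Bool) : (FreeGroup.mk [x] : F).norm ≤ 1 :=
  FreeGroup.norm_mk_le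

/-- elements of the ball with respect to `X` -/
theorem ballX {n : ℕ} {p : G} (hp : p ∈ ball X n) : p.2.norm ≤ n ∧ (p.1 ≠ 1 → p.2.norm + 1 ≤ n) := by
  obtain ⟨l, hl, hx, rfl⟩ := hp
  have key : ∀ l : List G, (∀ x ∈ l, x ∈ X ∨ x⁻¹ ∈ X) →
      l.prod.2.norm ≤ l.length ∧ (l.prod.1 ≠ 1 → l.prod.2.norm + 1 ≤ l.length) := by
    intro l
    induction l with
    | nil => intro _; simp
    | cons y l ih =>
      intro hx
      obtain ⟨ih1, ih2⟩ := ih (fun x h => hx x (List.mem_cons_of_mem _ h))
      rw [List.prod_cons, List.length_cons]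
      have hy : (y.2 = 1) ∨ (y.1 = 1 ∧ y.2.norm ≤ 1) := by
        rcases hx y (by simp) with (h | ⟨i, rfl⟩) | (h | ⟨i, hi⟩)
        · left
          rw [Set.mem_singleton_iff] at h
          rw [h]
        · right
          simp
        · left
          rw [Set.mem_singleton_iff] at h
          have := congrArg Prod.snd h
          simpa using this
        · right
          have h1 := congrArg Prod.fst hi
          have h2 := congrArg Prod.snd hi
          simp only [Prod.fst_inv, Prod.snd_inv] at h1 h2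
          refine ⟨by simpa using h1.symm, ?_⟩
          rw [← FreeGroup.norm_inv_eq, ← h2]
          simp
      rcases hy with h | ⟨h1, h2⟩
      · rw [Prod.snd_mul, h, one_mul]
        exact ⟨by omega, fun _ => by omega⟩
      · have h3 := FreeGroup.norm_mul_le y.2 l.prod.2
        rw [Prod.snd_mul, Prod.fst_mul, h1, one_mul]
        refine ⟨by omega, fun h => ?_⟩
        have := ih2 h
        omega
  obtain ⟨h1, h2⟩ := key l hx
  exact ⟨h1.trans hl, fun h => (h2 h).trans hl⟩

theorem ballY {n : ℕ} {p : G} (hp : p ∈ ball Y n) : p.2.norm ≤ n := by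
  obtain ⟨l, hl, hx, rfl⟩ := hp
  have key : ∀ l : List G, (∀ x ∈ l, x ∈ Y ∨ x⁻¹ ∈ Y) → l.prod.2.norm ≤ l.length := by
    intro l
    induction l with
    | nil => intro _; simp
    | cons y l ih =>
      intro hx
      have ih1 := ih (fun x h => hx x (List.mem_cons_of_mem _ h))
      rw [List.prod_cons, List.length_cons]
      have hY : ∀ y ∈ Y, y.2.norm ≤ 1 := by
        rintro y ((h | ⟨i, rfl⟩) | ⟨i, rfl⟩)
        · rw [Set.mem_singleton_iff] at h
          rw [h]; simp
        · simp
        · simp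
      have hy : y.2.norm ≤ 1 := by
        rcases hx y (by simp) with h | h
        · exact hY y h
        · have := hY _ h
          rwa [Prod.snd_inv, FreeGroup.norm_inv_eq] at this
      have h3 := FreeGroup.norm_mul_le y.2 l.prod.2
      rw [Prod.snd_mul]
      omega
  exact (key l hx).trans hl

/-- a word of the free group as a product of generators -/
theorem exists_list (L : List (ZMod 3 × Bool)) :
    ∃ l : List G, l.length ≤ L.length ∧ (∀ x ∈ l, x ∈ X ∨ x⁻¹ ∈ X) ∧
      l.prod = (1, FreeGroup.mk L) := by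
  induction L with
  | nil => exact ⟨[], by simp, by simp, by rw [← FreeGroup.one_eq_mk]; rfl⟩
  | cons x L ih =>
    obtain ⟨l, hl, hx, hp⟩ := ih
    refine ⟨(1, FreeGroup.mk [x]) :: l, by simpa using hl, ?_, ?_⟩
    · intro y hy
      rcases List.mem_cons.mp hy with rfl | h
      · obtain ⟨i, e⟩ := x
        cases e
        · right
          refine Or.inr ⟨i, ?_⟩
          ext1
          · simp
          · simp
            rfl
        · left
          exact Or.inr ⟨i, rfl⟩
      · exact hx y h
    · rw [List.prod_cons, hp, Prod.mk_mul_mk, one_mul, FreeGroup.mul_mk]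
      rfl

theorem mem_ballX {n : ℕ} {v : F} (hv : v.norm ≤ n) : ((1, v) : G) ∈ ball X n := by
  obtain ⟨l, hl, hx, hp⟩ := exists_list v.toWord
  refine ⟨l, hl.trans hv, hx, ?_⟩
  rw [hp, FreeGroup.mk_toWord]

theorem mem_ballY {n : ℕ} {u : Multiplicative (ZMod 2)} {v : F} (hv : v.norm ≤ n + 1) :
    ((u, v) : G) ∈ ball Y (n + 1) := by
  rcases cases_s u with rfl | rfl
  · obtain ⟨l, hl, hx, hp⟩ := mem_ballX hv
    exact ⟨l, hl, fun x h => (hx x h).imp Or.inl Or.inl, hp⟩
  · rcases hv' : v.toWord with _ | ⟨x, L⟩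
    · refine ⟨[(s, 1)], by simp, ?_, ?_⟩
      · intro x hx
        left
        left
        left
        simpa using hx
      · have : v = 1 := FreeGroup.toWord_eq_nil_iff.mp hv'
        rw [this]; simp
    · obtain ⟨l, hl, hx, hp⟩ := exists_list L
      have hlen : L.length + 1 ≤ n + 1 := by
        have : v.toWord.length ≤ n + 1 := hv
        rwa [hv', List.length_cons] at this
      refine ⟨(s, FreeGroup.mk [x]) :: l, by rw [List.length_cons]; omega, ?_, ?_⟩
      · intro y hy
        rcases List.mem_cons.mp hy with rfl | h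
        · obtain ⟨i, e⟩ := x
          cases e
          · right
            refine Or.inr ⟨i, ?_⟩
            ext1
            · simp [s_inv]
            · simp
              rfl
          · left
            exact Or.inr ⟨i, rfl⟩
        · exact (hx y h).imp Or.inl Or.inl
      · rw [List.prod_cons, hp, Prod.mk_mul_mk, mul_one, FreeGroup.mul_mk]
        have : v = FreeGroup.mk (x :: L) := by rw [← hv', FreeGroup.mk_toWord]
        rw [this]; rfl

theorem X_gen : Subgroup.closure X = ⊤ := by
  rw [Subgroup.eq_top_iff']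
  rintro ⟨u, v⟩
  have h1 : ((1, v) : G) ∈ Subgroup.closure X := by
    obtain ⟨l, -, hx, hp⟩ := mem_ballX (le_refl v.norm)
    rw [← hp]
    apply Subgroup.list_prod_mem
    intro x h
    rcases hx x h with h | h
    · exact Subgroup.subset_closure h
    · exact (Subgroup.inv_mem_iff _).mp (Subgroup.subset_closure h)
  have h2 : ((u, 1) : G) ∈ Subgroup.closure X := by
    rcases cases_s u with rfl | rfl
    · exact Subgroup.one_mem _
    · exact Subgroup.subset_closure (Or.inl rfl)
  have := Subgroup.mul_mem _ h2 h1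
  rwa [Prod.mk_mul_mk, mul_one, one_mul] at this

theorem Y_gen : Subgroup.closure Y = ⊤ := by
  rw [eq_top_iff, ← X_gen]
  exact Subgroup.closure_mono Set.subset_union_left

theorem finB (n : ℕ) : ((Set.univ : Set (Multiplicative (ZMod 2))) ×ˢ B n).Finite :=
  Set.finite_univ.prod (B_finite n)

theorem ballX_finite (n : ℕ) : (ball X n).Finite :=
  (finB n).subset (fun _ hp => ⟨trivial, (ballX hp).1⟩)

theorem ballY_finite (n : ℕ) : (ball Y n).Finite :=
  (finB n).subset (fun _ hp => ⟨trivial, ballY hp⟩)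

theorem card_ballX (n : ℕ) : (ball X (n + 1)).ncard ≤ (B (n + 1)).ncard + (B n).ncard := by
  have hsub : ball X (n + 1) ⊆ (fun v => (1, v)) '' B (n + 1) ∪ (fun v => (s, v)) '' B n := by
    rintro ⟨u, v⟩ hp
    obtain ⟨h1, h2⟩ := ballX hp
    rcases cases_s u with rfl | rfl
    · exact Or.inl ⟨v, h1, rfl⟩
    · refine Or.inr ⟨v, ?_, rfl⟩
      have := h2 s_ne
      exact Nat.le_of_succ_le_succ this
  refine (Set.ncard_le_ncard hsub (((B_finite _).image _).union ((B_finite _).image _))).trans ?_
  refine (Set.ncard_union_le _ _).trans ?_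
  exact Nat.add_le_add (Set.ncard_image_le (B_finite _)) (Set.ncard_image_le (B_finite _))

theorem card_ballY (n : ℕ) : (ball Y (n + 1)).ncard = 2 * (B (n + 1)).ncard := by
  have : ball Y (n + 1) = (Set.univ : Set (Multiplicative (ZMod 2))) ×ˢ B (n + 1) := by
    ext ⟨u, v⟩
    constructor
    · intro hp
      exact ⟨trivial, ballY hp⟩
    · rintro ⟨-, hv⟩
      exact mem_ballY hv
  rw [this, Set.ncard_prod, Set.ncard_univ]
  congr 1
  exact Nat.card_zmod 2

theorem class_eq (u : Multiplicative (ZMod 2)) (v : F) :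
    twClass phi ((u, v) : G) = twClass phi (1, v) := by
  ext x
  constructor
  · rintro ⟨z, rfl⟩
    refine ⟨(z.1 * u, z.2), ?_⟩
    ext1 <;> simp [phi_apply]
  · rintro ⟨z, rfl⟩
    refine ⟨(z.1 * u⁻¹, z.2), ?_⟩
    ext1 <;> simp [phi_apply]

theorem classes_le (n : ℕ) : (twClass phi '' ball Y n).ncard ≤ (twClass phi '' ball X n).ncard := by
  refine Set.ncard_le_ncard ?_ ((ballX_finite n).image _)
  rintro _ ⟨⟨u, v⟩, hp, rfl⟩
  exact ⟨(1, v), mem_ballX (ballY hp), (class_eq u v).symm⟩

theorem classes_lower (n : ℕ) : (B n).ncard ≤ (twClass phi '' ball Y (n + 1)).ncard := by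
  refine (B_E n).trans ?_
  refine Set.ncard_le_ncard_of_injOn (fun w => twClass phi ((1, w) : G)) ?_ ?_
    ((ballY_finite _).image _)
  · rintro w ⟨hw, -⟩
    exact ⟨(1, w), mem_ballY hw, rfl⟩
  · rintro w ⟨-, hw⟩ w' ⟨-, hw'⟩ h
    simp only at h
    have h1 : ((1, w) : G) ∈ twClass phi ((1, w) : G) := ⟨1, by simp⟩
    rw [h] at h1
    obtain ⟨z, hz⟩ := h1
    have h2 := congrArg Prod.snd hz
    simp only [phi_apply, Prod.snd_mul, Prod.snd_inv] at h2
    exact E_nonconj hw' hw h2

theorem B_pos (n : ℕ) : 0 < (B n).ncard :=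
  (Set.ncard_pos (B_finite n)).mpr ⟨1, by simp [B]⟩

theorem ratioY_lower (n : ℕ) : (1 / 14 : ℝ) ≤ ratio Y phi (n + 1) := by
  unfold ratio
  have h1 := classes_lower n
  have h2 := B_upper n
  have h3 := card_ballY n
  have h4 : 0 < (ball Y (n + 1)).ncard := by rw [h3]; have := B_pos (n + 1); omega
  have h4' : (0 : ℝ) < (ball Y (n + 1)).ncard := by exact_mod_cast h4
  rw [le_div_iff₀ h4']
  have h5 : (ball Y (n + 1)).ncard ≤ 14 * (twClass phi '' ball Y (n + 1)).ncard := by omega
  have h6 : ((ball Y (n + 1)).ncard : ℝ) ≤ 14 * ((twClass phi '' ball Y (n + 1)).ncard : ℝ) := by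
    exact_mod_cast h5
  linarith

theorem ratio_compare (n : ℕ) : ratio Y phi (n + 1) ≤ 3 / 5 * ratio X phi (n + 1) := by
  unfold ratio
  have h1 := classes_le (n + 1)
  have h2 := B_double n
  have h3 := card_ballY n
  have h4 := card_ballX n
  have hBp := B_pos (n + 1)
  have h5 : 0 < (ball X (n + 1)).ncard :=
    (Set.ncard_pos (ballX_finite _)).mpr ⟨1, [], by simp, by simp, by simp⟩
  have h5' : (0 : ℝ) < (ball X (n + 1)).ncard := by exact_mod_cast h5
  have h6' : (0 : ℝ) < (B (n + 1)).ncard := by exact_mod_cast hBp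
  have h7 : 5 * (ball X (n + 1)).ncard ≤ 6 * (B (n + 1)).ncard := by omega
  have h7' : 5 * ((ball X (n + 1)).ncard : ℝ) ≤ 6 * ((B (n + 1)).ncard : ℝ) := by exact_mod_cast h7
  have h1' : ((twClass phi '' ball Y (n + 1)).ncard : ℝ) ≤ (twClass phi '' ball X (n + 1)).ncard := by
    exact_mod_cast h1
  rw [h3]
  push_cast
  rw [← mul_div_assoc, div_le_div_iff₀ (by positivity) h5']
  have h8 : (0 : ℝ) ≤ (twClass phi '' ball X (n + 1)).ncard := by positivity
  calc ((twClass phi '' ball Y (n + 1)).ncard : ℝ) * (ball X (n + 1)).ncard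
      ≤ (twClass phi '' ball X (n + 1)).ncard * (ball X (n + 1)).ncard :=
        mul_le_mul_of_nonneg_right h1' h5'.le
    _ ≤ (twClass phi '' ball X (n + 1)).ncard * (6 / 5 * (B (n + 1)).ncard) :=
        mul_le_mul_of_nonneg_left (by linarith) h8
    _ = _ := by ring

theorem ratioX_le_one (n : ℕ) : ratio X phi n ≤ 1 := by
  unfold ratio
  apply div_le_one_of_le₀ _ (by positivity)
  exact_mod_cast Set.ncard_image_le (ballX_finite n)

/-- There are a finitely generated group `G`, an endomorphism `φ` of `G` and two finite generating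
sets `X`, `Y` of `G` such that `tcr_X(φ, G) ≠ tcr_Y(φ, G)`. -/
theorem result : ∃ (G : Type) (_ : Group G) (φ : G →* G) (X Y : Set G), X.Finite ∧ Y.Finite ∧
    Subgroup.closure X = ⊤ ∧ Subgroup.closure Y = ⊤ ∧ tcr X φ ≠ tcr Y φ := by
  refine ⟨G, inferInstance, phi, X, Y, X_finite, Y_finite, X_gen, Y_gen, ?_⟩
  intro heq
  have hX0 : ∀ n, 0 ≤ ratio X phi n := fun n => by unfold ratio; positivity
  have hY0 : ∀ n, 0 ≤ ratio Y phi n := fun n => by unfold ratio; positivity
  have hXb : IsBoundedUnder (· ≤ ·) atTop (ratio X phi) :=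
    isBoundedUnder_of ⟨1, ratioX_le_one⟩
  have hYle : ∀ᶠ n in atTop, ratio Y phi n ≤ 3 / 5 * ratio X phi n := by
    filter_upwards [eventually_ge_atTop 1] with n hn
    obtain ⟨m, rfl⟩ : ∃ m, n = m + 1 := ⟨n - 1, by omega⟩
    exact ratio_compare m
  have hYge : ∀ᶠ n in atTop, (1 / 14 : ℝ) ≤ ratio Y phi n := by
    filter_upwards [eventually_ge_atTop 1] with n hn
    obtain ⟨m, rfl⟩ : ∃ m, n = m + 1 := ⟨n - 1, by omega⟩
    exact ratioY_lower m
  have hYb : IsBoundedUnder (· ≤ ·) atTop (ratio Y phi) := by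
    refine ⟨3 / 5, ?_⟩
    rw [eventually_map]
    filter_upwards [hYle] with n hn
    have := ratioX_le_one n
    linarith
  have hYcob : IsCoboundedUnder (· ≤ ·) atTop (ratio Y phi) :=
    IsBoundedUnder.isCoboundedUnder_le ⟨0, by
      rw [eventually_map]
      exact Eventually.of_forall (fun n => hY0 n)⟩
  have hL : (1 / 14 : ℝ) ≤ tcr Y phi :=
    le_limsup_of_frequently_le hYge.frequently hYb
  -- the eventual upper bound
  have hev : ∀ᶠ n in atTop, ratio X phi n < 4 / 3 * tcr Y phi := by
    apply eventually_lt_of_limsup_lt _ hXb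
    change tcr X phi < _
    rw [heq]
    linarith
  have hfin : tcr Y phi ≤ 3 / 5 * (4 / 3 * tcr Y phi) := by
    apply limsup_le_of_le hYcob
    filter_upwards [hev, hYle] with n h1 h2
    linarith
  linarith

end Pool.Agent.Results.MP_91bf1e_al.RatioDepends
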